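import Pool.Agent.TF82.Main

/-! 2-factors with at most `k` cycles under condition (C), `σ_{k+1} ≥ n` and a bound on
`σ_{k+2}` which is vacuous when the independence number is at most `k + 1`. -/

namespace Pool.Agent.Results.MP_12c032_co.IndependencePlusOne

open List Pool.Agent.TF82

universe u

set_option linter.unusedSectionVars false
set_option linter.unusedVariables false

variable {V : Type u} [DecidableEq V]

theorem dU_clique [Fintype V] {G : SimpleGraph V} [DecidableRel G.Adj] {Z : Finset V}
    {T : V → Finset V} (hD : Dec G Finset.univ Z T) {i : V} (hi : i ∈ Z) {w : V} (hw : w ∈ T i) :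
    dU G Finset.univ w + 1 = (Z.filter (fun z => G.Adj w z)).card + (T i).card := by
  have h1 : Finset.univ.filter (fun x => G.Adj w x) =
      (T i).erase w ∪ Z.filter (fun z => G.Adj w z) := by
    ext x
    rw [Finset.mem_filter, Finset.mem_union, Finset.mem_erase, Finset.mem_filter]
    constructor
    · rintro ⟨_, h⟩
      rcases hD.nb i hi w hw x (Finset.mem_univ _) h with h1 | h1
      · refine Or.inl ⟨?_, h1⟩
        rintro rfl
        exact G.loopless.irrefl _ h
      · exact Or.inr ⟨h1, h⟩
    · rintro (⟨h1, h2⟩ | h1)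
      · exact ⟨Finset.mem_univ _, hD.clique i hi w hw x h2 h1.symm⟩
      · exact ⟨Finset.mem_univ _, h1.2⟩
  have h2 : Disjoint ((T i).erase w) (Z.filter (fun z => G.Adj w z)) := by
    rw [Finset.disjoint_left]
    intro x hx hx'
    exact hD.hTZ i hi x (Finset.mem_of_mem_erase hx) (Finset.mem_filter.1 hx').1
  unfold dU
  rw [h1, Finset.card_union_of_disjoint h2, Finset.card_erase_of_mem hw]
  have := Finset.card_pos.2 ⟨w, hw⟩
  omega

theorem dec_indep {G : SimpleGraph V} {U Z : Finset V} {T : V → Finset V}
    (hD : Dec G U Z T) {u : V → V} (hu : ∀ i ∈ Z, u i ∈ T i) :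
    Set.InjOn u Z ∧ G.IsIndepSet ((Z.image u : Finset V) : Set V) := by
  have hinj : Set.InjOn u Z := by
    intro i hi j hj hij
    by_contra hne
    exact hD.disj i hi j hj hne (u i) (hu i hi) (hij ▸ hu j hj)
  refine ⟨hinj, ?_⟩
  intro a ha b hb hab hadj
  rw [Finset.mem_coe, Finset.mem_image] at ha hb
  obtain ⟨i, hi, rfl⟩ := ha
  obtain ⟨j, hj, rfl⟩ := hb
  have hij : i ≠ j := fun h => hab (by rw [h])
  rcases hD.nb i hi (u i) (hu i hi) (u j) (hD.hT j hj (hu j hj)) hadj with h | h
  · exact hD.disj i hi j hj hij _ h (hu j hj)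
  · exact hD.hTZ j hj _ (hu j hj) h

/-- the case of independence number at most `k + 1` -/
theorem cover_alpha [Fintype V] (k : ℕ) (G : SimpleGraph V) [DecidableRel G.Adj]
    (hC : ∀ I : Finset V, G.IsIndepSet (I : Set V) → ∀ v ∈ I, I.card + 1 ≤ dU G Finset.univ v)
    (hσ : ∀ I : Finset V, G.IsIndepSet (I : Set V) → I.card = k + 1 →
      Fintype.card V ≤ ∑ v ∈ I, dU G Finset.univ v)
    (hα : ∀ I : Finset V, G.IsIndepSet (I : Set V) → I.card ≤ k + 1) : Cov G k := by
  classical
  by_contra hno
  have hN : ∀ L, CovU G Finset.univ L → k + 1 ≤ L.length := by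
    intro L hL
    by_contra hcon
    push Not at hcon
    exact hno ⟨L, by omega, hL.1, hL.2.1, fun x => (hL.2.2 x).2 (Finset.mem_univ _)⟩
  obtain ⟨Z, T, hZ, hD⟩ := exists_dec (k + 1) Finset.univ (fun I _ hI _ v hv => hC I hI v hv)
    (fun I _ hI => hα I hI) hN
  obtain ⟨L, hL1, hL2⟩ := fewer hD (by omega) (by
    intro i hi w hw
    -- choose representatives with `w` at `i`
    have hne : ∀ j ∈ Z, ∃ x, x ∈ T j := by
      intro j hj
      obtain ⟨p, hp, _⟩ := hD.own j hj
      exact ⟨p, hp⟩
    choose! u0 hu0 using hne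
    have hu : ∀ j ∈ Z, (if j = i then w else u0 j) ∈ T j := by
      intro j hj
      by_cases h : j = i
      · rw [if_pos h, h]; exact hw
      · rw [if_neg h]; exact hu0 j hj
    obtain ⟨hinj, hind⟩ := dec_indep hD (u := fun j => if j = i then w else u0 j) hu
    have h1 := hC _ hind w (Finset.mem_image.2 ⟨i, hi, by simp⟩)
    rw [Finset.card_image_of_injOn hinj] at h1
    have h2 := dU_clique hD hi hw
    omega) (by
    intro u hu
    obtain ⟨hinj, hind⟩ := dec_indep hD hu
    have h1 := hσ _ hind (by rw [Finset.card_image_of_injOn hinj, hZ])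
    rw [Finset.sum_image hinj] at h1
    have hcard : Fintype.card V = Z.card + ∑ i ∈ Z, (T i).card := by
      rw [← Finset.card_biUnion (fun i hi j hj hij => by
        rw [Function.onFun, Finset.disjoint_left]
        exact hD.disj i hi j hj hij)]
      rw [← Finset.card_union_of_disjoint, ← Finset.card_univ]
      · congr 1
        ext x
        simp only [Finset.mem_univ, Finset.mem_union, Finset.mem_biUnion, true_iff]
        exact hD.cov x (Finset.mem_univ _)
      · rw [Finset.disjoint_left]
        intro x hx hx'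
        rw [Finset.mem_biUnion] at hx'
        obtain ⟨i, hi, hxi⟩ := hx'
        exact hD.hTZ i hi x hxi hx
    have hsum : ∑ i ∈ Z, (dU G Finset.univ (u i) + 1) =
        ∑ i ∈ Z, ((Z.filter (fun z => G.Adj (u i) z)).card + (T i).card) :=
      Finset.sum_congr rfl (fun i hi => dU_clique hD hi (hu i hi))
    rw [Finset.sum_add_distrib, Finset.sum_add_distrib, Finset.sum_const, smul_eq_mul,
      mul_one] at hsum
    omega)
  have := hN L hL1
  omega

/-- covers from the three conditions, by closure -/
theorem cover_main2 [Fintype V] (k : ℕ) : ∀ (m : ℕ) (G : SimpleGraph V)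
    [DecidableRel G.Adj],
    (Finset.univ.filter (fun p : V × V => ¬ G.Adj p.1 p.2)).card ≤ m →
    (∀ I : Finset V, G.IsIndepSet (I : Set V) → ∀ v ∈ I, I.card + 1 ≤ dU G Finset.univ v) →
    (∀ I : Finset V, G.IsIndepSet (I : Set V) → I.card = k + 1 →
      Fintype.card V ≤ ∑ v ∈ I, dU G Finset.univ v) →
    (∀ I : Finset V, G.IsIndepSet (I : Set V) → I.card = k + 2 →
      (k + 2) * (Fintype.card V - 1) < 2 * ∑ v ∈ I, dU G Finset.univ v) →
    Cov G k := by
  intro m
  induction m with
  | zero =>
    intro G _ hm hC hσ hD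
    have hall : ∀ x y, G.Adj x y := by
      intro x y
      by_contra h
      have : (x, y) ∈ (Finset.univ.filter (fun p : V × V => ¬ G.Adj p.1 p.2)) := by simp [h]
      rw [Finset.card_eq_zero.1 (Nat.le_zero.1 hm)] at this
      simp at this
    refine ⟨[], by simp, by simp, by simp, ?_⟩
    intro x
    exact absurd (hall x x) (G.loopless.irrefl x)
  | succ m ih =>
    intro G _ hm hC hσ hD
    by_cases hex : ∃ u v : V, u ≠ v ∧ ¬ G.Adj u v ∧
        Fintype.card V ≤ dU G Finset.univ u + dU G Finset.univ v
    · obtain ⟨u, v, huv, hna, hdeg⟩ := hex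
      classical
      let G' : SimpleGraph V := G ⊔ SimpleGraph.edge u v
      have hle : G ≤ G' := le_sup_left
      have hG' : ∀ x y, G'.Adj x y → G.Adj x y ∨ (x = u ∧ y = v) ∨ (x = v ∧ y = u) := by
        intro x y hxy
        rw [SimpleGraph.sup_adj, SimpleGraph.edge_adj] at hxy
        tauto
      have huv' : G'.Adj u v := by
        rw [SimpleGraph.sup_adj, SimpleGraph.edge_adj]
        exact Or.inr ⟨Or.inl ⟨rfl, rfl⟩, huv⟩
      have hd : ∀ x, dU G Finset.univ x ≤ dU G' Finset.univ x := by
        intro x
        unfold dU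
        apply Finset.card_le_card
        intro w hw
        rw [Finset.mem_filter] at hw ⊢
        exact ⟨hw.1, hle hw.2⟩
      have hind : ∀ I : Finset V, G'.IsIndepSet (I : Set V) → G.IsIndepSet (I : Set V) := by
        intro I hI a ha b hb hab h
        exact hI ha hb hab (hle h)
      apply closure_step hG' hdeg
      apply ih G'
      · have hsub : (Finset.univ.filter (fun p : V × V => ¬ G'.Adj p.1 p.2)) ⊂
            (Finset.univ.filter (fun p : V × V => ¬ G.Adj p.1 p.2)) := by
          rw [Finset.ssubset_iff_of_subset]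
          · exact ⟨(u, v), by simp [hna], by simp [huv']⟩
          · intro p hp
            rw [Finset.mem_filter] at hp ⊢
            exact ⟨hp.1, fun h => hp.2 (hle h)⟩
        have := Finset.card_lt_card hsub
        omega
      · intro I hI v hv
        exact (hC I (hind I hI) v hv).trans (hd v)
      · intro I hI hIk
        exact (hσ I (hind I hI) hIk).trans (Finset.sum_le_sum (fun v _ => hd v))
      · intro I hI hIk
        exact (hD I (hind I hI) hIk).trans_le
          (Nat.mul_le_mul_left _ (Finset.sum_le_sum (fun v _ => hd v)))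
    · push Not at hex
      apply cover_alpha k G hC hσ
      intro I hI
      by_contra hcon
      push Not at hcon
      obtain ⟨J, hJI, hJ⟩ := Finset.exists_subset_card_eq (show k + 2 ≤ I.card from hcon)
      have hJind : G.IsIndepSet (J : Set V) := fun a ha b hb hab => hI (hJI ha) (hJI hb) hab
      have hlt := hD J hJind hJ
      have hpair : ∀ u ∈ J, ∀ v ∈ J.erase u,
          dU G Finset.univ u + dU G Finset.univ v ≤ Fintype.card V - 1 := by
        intro u hu v hv
        rw [Finset.mem_erase] at hv
        have := hex u v (Ne.symm hv.1) (hJind hu hv.2 (Ne.symm hv.1))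
        omega
      have hsum : ∑ u ∈ J, ∑ v ∈ J.erase u, (dU G Finset.univ u + dU G Finset.univ v) ≤
          ∑ u ∈ J, ∑ v ∈ J.erase u, (Fintype.card V - 1) :=
        Finset.sum_le_sum (fun u hu => Finset.sum_le_sum (fun v hv => hpair u hu v hv))
      have hl : ∑ u ∈ J, ∑ v ∈ J.erase u, (dU G Finset.univ u + dU G Finset.univ v) +
          ∑ u ∈ J, dU G Finset.univ u =
          (k + 1) * ∑ u ∈ J, dU G Finset.univ u + (k + 2) * ∑ u ∈ J, dU G Finset.univ u := by
        have h1 : ∀ u ∈ J, ∑ v ∈ J.erase u, (dU G Finset.univ u + dU G Finset.univ v) +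
            dU G Finset.univ u = (k + 1) * dU G Finset.univ u + ∑ v ∈ J, dU G Finset.univ v := by
          intro u hu
          rw [Finset.sum_add_distrib, Finset.sum_const, smul_eq_mul,
            Finset.card_erase_of_mem hu, hJ, show k + 2 - 1 = k + 1 by omega, Nat.add_assoc,
            Finset.sum_erase_add _ _ hu]
        rw [← Finset.sum_add_distrib, Finset.sum_congr rfl h1, Finset.sum_add_distrib,
          Finset.sum_const, smul_eq_mul, hJ, ← Finset.mul_sum]
      have hr : ∑ u ∈ J, ∑ v ∈ J.erase u, (Fintype.card V - 1) =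
          (k + 2) * ((k + 1) * (Fintype.card V - 1)) := by
        rw [Finset.sum_congr rfl (fun u hu => by
          rw [Finset.sum_const, smul_eq_mul, Finset.card_erase_of_mem hu, hJ,
            show k + 2 - 1 = k + 1 by omega]), Finset.sum_const, smul_eq_mul, hJ]
      set S := ∑ u ∈ J, dU G Finset.univ u with hS
      set n1 := Fintype.card V - 1 with hn1
      have h2 : 2 * ((k + 1) * S) ≤ (k + 2) * ((k + 1) * n1) := by
        have h3 := hsum
        rw [hr] at h3
        nlinarith
      have h3 : (k + 1) * (2 * S) ≤ (k + 1) * ((k + 2) * n1) := by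
        calc (k + 1) * (2 * S) = 2 * ((k + 1) * S) := by ring
          _ ≤ (k + 2) * ((k + 1) * n1) := h2
          _ = (k + 1) * ((k + 2) * n1) := by ring
      have h4 : 2 * S ≤ (k + 2) * n1 := Nat.le_of_mul_le_mul_left h3 (by omega)
      omega

/-- Let `k` be a natural number and `G` a finite graph of order `n` such that
* every independent set `I` satisfies `|I| + 1 ≤ deg v` for all `v ∈ I` (condition (C)),
* every independent set with `k + 1` elements has degree sum at least `n`,
* every independent set with `k + 2` elements has degree sum more than `(k + 2) (n - 1) / 2`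
  (no condition when the independence number is at most `k + 1`).
Then `G` has a spanning 2-regular subgraph with at most `k` connected components. -/
theorem result {V : Type u} [Fintype V] [DecidableEq V] (G : SimpleGraph V)
    [DecidableRel G.Adj] (k : ℕ)
    (hC : ∀ I : Finset V, G.IsIndepSet (I : Set V) → ∀ v ∈ I, I.card + 1 ≤ G.degree v)
    (hσ : ∀ I : Finset V, G.IsIndepSet (I : Set V) → I.card = k + 1 →
      Fintype.card V ≤ ∑ v ∈ I, G.degree v)
    (hσ' : ∀ I : Finset V, G.IsIndepSet (I : Set V) → I.card = k + 2 →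
      (k + 2) * (Fintype.card V - 1) < 2 * ∑ v ∈ I, G.degree v) :
    ∃ F : SimpleGraph V, F ≤ G ∧ (∀ v, (F.neighborSet v).ncard = 2) ∧
      Nat.card F.ConnectedComponent ≤ k := by
  have hd : ∀ v, dU G Finset.univ v = G.degree v := by
    intro v
    unfold dU
    rw [← SimpleGraph.card_neighborFinset_eq_degree, SimpleGraph.neighborFinset_eq_filter]
  apply twoFactor_of_cov
  apply cover_main2 k _ G le_rfl
  · intro I hI v hv
    rw [hd]
    exact hC I hI v hv
  · intro I hI hIk
    have := hσ I hI hIk
    simpa only [hd] using this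
  · intro I hI hIk
    have := hσ' I hI hIk
    simpa only [hd] using this

end Pool.Agent.Results.MP_12c032_co.IndependencePlusOne
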