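import Pool.Agent.TFG.Final

/-! 2-factors with at most `k` cycles in all graphs of large order, for every `k`, under exactly
condition (C) and `σ_{k+1} ≥ n`. -/

namespace Pool.Agent.Results.MP_12c032_co.LargeAll

open List Pool.Agent.TF82 Pool.Agent.TFG

universe u

/-- Let `k ≥ 1` and let `G` be a finite graph of order `n ≥ (2^54 * (k + 1)^26)^8` such that
* every independent set `I` satisfies `|I| + 1 ≤ deg v` for all `v ∈ I` (condition (C)),
* every independent set with `k + 1` elements has degree sum at least `n`.
Then `G` has a spanning 2-regular subgraph with at most `k` connected components. -/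
theorem result {V : Type u} [Fintype V] [DecidableEq V] (G : SimpleGraph V)
    [DecidableRel G.Adj] (k : ℕ) (hk : 1 ≤ k)
    (hC : ∀ I : Finset V, G.IsIndepSet (I : Set V) → ∀ v ∈ I, I.card + 1 ≤ G.degree v)
    (hσ : ∀ I : Finset V, G.IsIndepSet (I : Set V) → I.card = k + 1 →
      Fintype.card V ≤ ∑ v ∈ I, G.degree v)
    (hn : (2 ^ 54 * (k + 1) ^ 26) ^ 8 ≤ Fintype.card V) :
    ∃ F : SimpleGraph V, F ≤ G ∧ (∀ v, (F.neighborSet v).ncard = 2) ∧
      Nat.card F.ConnectedComponent ≤ k := by
  have hd : ∀ v, dU G Finset.univ v = G.degree v := by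
    intro v
    unfold dU
    rw [← SimpleGraph.card_neighborFinset_eq_degree, SimpleGraph.neighborFinset_eq_filter]
  apply twoFactor_of_cov
  refine cov_all hk G ?_ ?_ hn
  · intro I hI v hv
    rw [hd]
    exact hC I hI v hv
  · intro I hI hIk
    have := hσ I hI hIk
    simpa only [hd] using this

end Pool.Agent.Results.MP_12c032_co.LargeAll
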