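import Pool.Agent.TFN.Final

/-! A 2-factor in which at most `k` cycles contain all vertices except a number bounded in terms
of `k`, under condition (C) and `σ_{k+1} ≥ n`. -/

namespace Pool.Agent.Results.MP_12c032_co.NearFactor

open List Pool.Agent.TF82 Pool.Agent.TFN

universe u

/-- Let `k` be a natural number and `G` a finite graph of order `n` such that
* every independent set `I` satisfies `|I| + 1 ≤ deg v` for all `v ∈ I` (condition (C)),
* every independent set with `k + 1` elements has degree sum at least `n`.
Then `G` has a spanning 2-regular subgraph `F` and a set `C` of at most `k` connected components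
of `F` such that at most `2^64 * (k + 1)^33` vertices lie outside the components of `C`. -/
theorem result {V : Type u} [Fintype V] [DecidableEq V] (G : SimpleGraph V)
    [DecidableRel G.Adj] (k : ℕ)
    (hC : ∀ I : Finset V, G.IsIndepSet (I : Set V) → ∀ v ∈ I, I.card + 1 ≤ G.degree v)
    (hσ : ∀ I : Finset V, G.IsIndepSet (I : Set V) → I.card = k + 1 →
      Fintype.card V ≤ ∑ v ∈ I, G.degree v) :
    ∃ F : SimpleGraph V, F ≤ G ∧ (∀ v, (F.neighborSet v).ncard = 2) ∧
      ∃ C : Set F.ConnectedComponent, C.ncard ≤ k ∧
        {v : V | F.connectedComponentMk v ∉ C}.ncard ≤ 2 ^ 64 * (k + 1) ^ 33 := by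
  have hd : ∀ v, dU G Finset.univ v = G.degree v := by
    intro v
    unfold dU
    rw [← SimpleGraph.card_neighborFinset_eq_degree, SimpleGraph.neighborFinset_eq_filter]
  obtain ⟨L1, L2, h1, h2, h3, h4, h5⟩ := near k G (by
    intro I hI v hv
    rw [hd]
    exact hC I hI v hv) (by
    intro I hI hIk
    have := hσ I hI hIk
    simpa only [hd] using this)
  obtain ⟨F, h6, h7, C, h8, h9⟩ := twoFactor_near h1 h2 h3
  exact ⟨F, h6, h7, C, h8.trans h4, h9.trans h5⟩

end Pool.Agent.Results.MP_12c032_co.NearFactor
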