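import Pool.Agent.TFS.Small

/-! Condition (C) alone: a graph of order `n` has a 2-factor with at most about `2 √n` cycles. -/

namespace Pool.Agent.Results.MP_12c032_co.SmallOrder

open List Pool.Agent.TF82 Pool.Agent.TFS

universe u

/-- Let `G` be a finite graph of order `n` such that every independent set `I` satisfies
`|I| + 1 ≤ deg v` for all `v ∈ I` (condition (C)). Then `G` has a spanning 2-regular subgraph whose
number `c` of connected components satisfies `c ^ 2 + 14 c ≤ 4 n + 4`, so that `c ≤ k` for every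
`k` with `4 n ≤ k ^ 2 + 16 k + 10`. -/
theorem result {V : Type u} [Fintype V] [DecidableEq V] (G : SimpleGraph V)
    [DecidableRel G.Adj]
    (hC : ∀ I : Finset V, G.IsIndepSet (I : Set V) → ∀ v ∈ I, I.card + 1 ≤ G.degree v) :
    ∃ F : SimpleGraph V, F ≤ G ∧ (∀ v, (F.neighborSet v).ncard = 2) ∧
      Nat.card F.ConnectedComponent ^ 2 + 14 * Nat.card F.ConnectedComponent ≤
        4 * Fintype.card V + 4 ∧
      ∀ k : ℕ, 4 * Fintype.card V ≤ k ^ 2 + 16 * k + 10 → Nat.card F.ConnectedComponent ≤ k := by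
  classical
  have hd : ∀ v, dU G Finset.univ v = G.degree v := by
    intro v
    unfold dU
    rw [← SimpleGraph.card_neighborFinset_eq_degree, SimpleGraph.neighborFinset_eq_filter]
  have hC' : ∀ I : Finset V, G.IsIndepSet (I : Set V) → ∀ v ∈ I,
      I.card + 1 ≤ dU G Finset.univ v := by
    intro I hI v hv
    rw [hd]
    exact hC I hI v hv
  have hex : ∃ k, Cov G k := by
    by_contra hcon
    push Not at hcon
    have h1 := cov_small hC' (hcon (Fintype.card V))
    omega
  have h1 := Nat.find_spec hex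
  obtain ⟨F, hF1, hF2, hF3⟩ := twoFactor_of_cov h1
  suffices h7 : Nat.card F.ConnectedComponent ^ 2 + 14 * Nat.card F.ConnectedComponent ≤
      4 * Fintype.card V + 4 by
    refine ⟨F, hF1, hF2, h7, fun k hk => ?_⟩
    by_contra hcon
    push Not at hcon
    have h8 : (k + 1) ^ 2 ≤ Nat.card F.ConnectedComponent ^ 2 := Nat.pow_le_pow_left hcon 2
    have h9 : (k + 1) ^ 2 = k ^ 2 + 2 * k + 1 := by ring
    omega
  rcases Nat.eq_zero_or_pos (Nat.find hex) with h0 | h0
  · have h2 : Nat.card F.ConnectedComponent = 0 := by omega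
    rw [h2]
    simp
  · obtain ⟨k, hk⟩ : ∃ k, Nat.find hex = k + 1 := ⟨Nat.find hex - 1, by omega⟩
    have h2 : ¬ Cov G k := Nat.find_min hex (by omega)
    have h3 := cov_small hC' h2
    have h4 : Nat.card F.ConnectedComponent ≤ k + 1 := by omega
    have h5 : Nat.card F.ConnectedComponent ^ 2 ≤ (k + 1) ^ 2 := Nat.pow_le_pow_left h4 2
    have h6 : (k + 1) ^ 2 = k * k + 2 * k + 1 := by ring
    omega

end Pool.Agent.Results.MP_12c032_co.SmallOrder
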